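import Pool.Agent.K3h61.CA.Joint

/-!
# MP_9cf523_lc, Q1: no constant factor for deterministic Bayesian clock auctions

For every `c` there are a downward-closed `F` and one finitely supported distribution `D` such
that, if the values are independent with law `D`, every deterministic clock auction has
`c E[welfare] < E[OPT]`.

Proof idea. There are `T + 1` value levels `B ^ (T - d)`, `d = 0, …, T`. At depth `k` the feasible
sets live in a region of `n_k = n_{k+1}²` buyers, about `μ_k = B ^ (k+1)` of which have level at most
`k`; a feasible set contains a head of at most `μ_k` buyers of the region, and the head determines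
a pseudorandom subregion with `n_{k+1}` buyers in which the rest of the set must lie. A head made
of buyers of level exactly `k` has value about `B ^ (T+1)` for every `k`, so `E[OPT]` is at least
`T B ^ (T+1) / 8`. A clock auction can only find the buyers of level at most `k` in a region by
losing almost all other buyers of the region, hence (the subregions are pseudorandom) also almost
all other buyers in the subregion that belongs to the head; a supermartingale with a union bound
over all nodes, together with the fact that at every time at most `n_0` subregions are
under-represented among the tested buyers, gives a telescoping inequality that bounds the expected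
welfare by `9 B ^ (T+1)`.
-/

set_option autoImplicit false

open MeasureTheory

namespace Pool.Agent.Results.MP_9cf523_lc.NoConstantFactorBayesian

open K3h61.CA

/-- a downward-closed feasibility constraint -/
def DownwardClosed {N : Type} (F : Finset (Finset N)) : Prop :=
  ∅ ∈ F ∧ ∀ S ∈ F, ∀ S' ⊆ S, S' ∈ F

/-- **Q1 has a negative answer.** -/
theorem result : ∀ c : ℝ, ∃ (n : ℕ) (F : Finset (Finset (Fin n))) (D : Measure ℝ),
    DownwardClosed F ∧ IsProbabilityMeasure D ∧
    (∃ s : Finset ℝ, (∀ x ∈ s, 0 < x) ∧ D (s : Set ℝ)ᶜ = 0) ∧
    (∀ f : (Fin n → ℝ) → ℝ, Integrable f (Measure.pi fun _ : Fin n => D)) ∧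
    ∀ A : ClockAuction (Fin n),
      (∀ᵐ v ∂(Measure.pi fun _ : Fin n => D), A.ValidAt F v) →
      c * ∫ v, A.welfare v ∂(Measure.pi fun _ : Fin n => D) <
        ∫ v, opt F v ∂(Measure.pi fun _ : Fin n => D) :=
  Joint.both.1

end Pool.Agent.Results.MP_9cf523_lc.NoConstantFactorBayesian
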