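import Pool.Agent.K3h61.CA.Joint

/-!
# MP_9cf523_lc, Q2: no constant factor for randomized prior-free clock auctions

For every `c` there is a downward-closed `F` such that for every randomized prior-free clock
auction some profile `v` of values has `c E[welfare at v] < OPT(v)`. The constraint is the one of
the answer to Q1 (see `K3h61.CA.Joint`); the bound for the deterministic auctions, which holds
against one distribution of the values, is averaged over the random auction.
-/

set_option autoImplicit false

open MeasureTheory

namespace Pool.Agent.Results.MP_9cf523_lc.NoConstantFactorPriorFree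

open K3h61.CA

/-- a downward-closed feasibility constraint -/
def DownwardClosed {N : Type} (F : Finset (Finset N)) : Prop :=
  ∅ ∈ F ∧ ∀ S ∈ F, ∀ S' ⊆ S, S' ∈ F

/-- **Q2 has a negative answer.** -/
theorem result : ∀ c : ℝ, ∃ (n : ℕ) (F : Finset (Finset (Fin n))), DownwardClosed F ∧
    ∀ (Ω : Type) [MeasurableSpace Ω] (P : Measure Ω) [IsProbabilityMeasure P]
      (A : Ω → ClockAuction (Fin n)),
      (∀ v : Fin n → ℝ, (∀ i, 0 ≤ v i) →
        (∀ᵐ ω ∂P, (A ω).ValidAt F v) ∧ Measurable (fun ω => (A ω).welfare v)) →
      ∃ v : Fin n → ℝ, (∀ i, 0 ≤ v i) ∧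
        c * ∫ ω, (A ω).welfare v ∂P < opt F v :=
  Joint.both.2

end Pool.Agent.Results.MP_9cf523_lc.NoConstantFactorPriorFree
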